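import Pool.Agent.K1H47.VXT.Tails

/-!
# Few integral points near a hypersurface have their projection near another hypersurface
-/

set_option autoImplicit false

namespace Pool.Agent.K1H47.VXT

open MvPolynomial Finset Pool.Agent.K1H59.VX

lemma prod_nval (S : Finset ℕ) (hS : ∀ p ∈ S, p.Prime) (V : Finset (Option ℕ))
    (hV : V ⊆ insertNone S) {B : ℝ} (hB : 1 ≤ B) (n : ℤ) (hn : n ≠ 0)
    (hnB : |(n : ℝ)| ≤ 2 * B) : 1 ≤ 2 * B * ∏ v ∈ V, nval v B 1 n := by
  classical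
  have hB0 : 0 < B := by linarith
  have h1 := Pool.Agent.H951R3.W.prod_padic_int S hS n hn
  have h2 : ∏ v ∈ insertNone S, nval v B 1 n =
      |(n : ℝ)| / B * ∏ p ∈ S, (padicNorm p (n : ℚ) : ℝ) := by
    rw [prod_insertNone]
    simp only [nval, pow_one]
  have h3 : 1 ≤ B * ∏ v ∈ insertNone S, nval v B 1 n := by
    rw [h2]
    have : B * (|(n : ℝ)| / B * ∏ p ∈ S, (padicNorm p (n : ℚ) : ℝ)) =
        |(n : ℝ)| * ∏ p ∈ S, (padicNorm p (n : ℚ) : ℝ) := by
      field_simp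
    rw [this]; exact h1
  have h4 : ∏ v ∈ insertNone S \ V, nval v B 1 n ≤ 2 := by
    have h5 : ∏ v ∈ insertNone S \ V, nval v B 1 n ≤
        ∏ v ∈ insertNone S \ V, (if v = none then (2 : ℝ) else 1) := by
      refine prod_le_prod (fun v _ => nval_nonneg v hB0.le 1 n) (fun v hv => ?_)
      rcases v with _ | p
      · simp only [nval, pow_one, if_true]
        rw [div_le_iff₀ hB0]; exact hnB
      · have hp : p ∈ S := by
          have := (mem_sdiff.mp hv).1
          simpa using this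
        simp only [nval]
        rw [if_neg (by simp)]
        exact padic_int_le (hS p hp) n
    refine h5.trans ?_
    rw [prod_ite_eq']
    split_ifs <;> norm_num
  have h6 : 0 ≤ ∏ v ∈ V, nval v B 1 n := prod_nonneg fun v _ => nval_nonneg v hB0.le 1 n
  calc (1 : ℝ) ≤ B * ∏ v ∈ insertNone S, nval v B 1 n := h3
    _ = B * ((∏ v ∈ insertNone S \ V, nval v B 1 n) * ∏ v ∈ V, nval v B 1 n) := by
        rw [prod_sdiff hV]
    _ ≤ B * (2 * ∏ v ∈ V, nval v B 1 n) := by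
        refine mul_le_mul_of_nonneg_left ?_ hB0.le
        exact mul_le_mul_of_nonneg_right h4 h6
    _ = 2 * B * ∏ v ∈ V, nval v B 1 n := by ring

theorem fibres (hLOC : S_LOC) (m : ℕ) (S : Finset ℕ) (hS : ∀ p ∈ S, p.Prime)
    (V : Finset (Option ℕ)) (hV : V ⊆ insertNone S)
    (F : Option ℕ → MvPolynomial (Fin (m + 2)) ℤ) (d : Option ℕ → ℕ) (α : Option ℕ → ℝ)
    (hF : ∀ v ∈ V, (F v).IsHomogeneous (d v)) (hα : 1 < ∑ v ∈ V, α v) {A c : ℝ} (hA : 0 < A)
    (hc : 0 < c) :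
    ∃ (N : ℕ) (B0 : ℝ), 1 ≤ B0 ∧ ∀ B : ℝ, B0 < B → ∀ X : Finset (Fin (m + 2) → ℤ),
      (∀ x ∈ X, Box B x ∧ ∀ v ∈ V, Close v B (F v) (d v) c (A * B ^ (-(α v))) x) →
      (∀ x ∈ X, ∀ y ∈ X, ∀ i : Fin (m + 1), x i.succ = y i.succ) → X.card ≤ N := by
  classical
  have hprime : ∀ v ∈ V, ∀ p, v = some p → p.Prime := by
    rintro v hv p rfl
    have := hV hv
    exact hS p (by simpa using this)
  have hex : ∀ v ∈ V, ∃ C c4 : ℝ, 1 ≤ C ∧ 0 < c4 ∧ c4 ≤ 1 ∧ ∀ B : ℝ, 1 ≤ B →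
      ∀ (x y : Fin (m + 2) → ℤ) (ε : ℝ), Box B x → Box B y → Agree x y →
      Close v B (F v) (d v) c ε x → Close v B (F v) (d v) c ε y → Near v B c4 x y →
      nval v B 1 (y 0 - x 0) ≤ C * (nval v B 1 (y 1 - x 1) + ε) := by
    intro v hv
    obtain ⟨C, c4, h1, h2, h3, h4⟩ := hLOC m (F v) (d v) v (hF v hv) (hprime v hv) c hc
    exact ⟨C, c4, h1, h2, h3, fun B hB => (h4 B hB).1⟩
  choose! C c4 hC1 hc40 hc41 hloc using hex
  -- uniform constants
  set CC : ℝ := 1 + ∑ v ∈ V, C v with hCC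
  have hCle : ∀ v ∈ V, C v ≤ CC := by
    intro v hv
    have := single_le_sum (f := C) (fun w hw => (zero_le_one.trans (hC1 w hw))) hv
    linarith
  have hCC1 : 1 ≤ CC := by
    have : 0 ≤ ∑ v ∈ V, C v := sum_nonneg fun w hw => (zero_le_one.trans (hC1 w hw))
    linarith
  set e : ℝ := 1 + ∑ v ∈ V, (c4 v)⁻¹ with he
  have he1 : 1 ≤ e := by
    have : 0 ≤ ∑ v ∈ V, (c4 v)⁻¹ := sum_nonneg fun w hw => (inv_pos.mpr (hc40 w hw)).le
    linarith
  have he0 : 0 < e := by linarith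
  have hele : ∀ v ∈ V, e⁻¹ ≤ c4 v := by
    intro v hv
    have h1 := single_le_sum (f := fun v => (c4 v)⁻¹)
      (fun w hw => (inv_pos.mpr (hc40 w hw)).le) hv
    have h2 : (c4 v)⁻¹ ≤ e := by
      have h1' : (c4 v)⁻¹ ≤ ∑ v ∈ V, (c4 v)⁻¹ := h1
      linarith
    exact (inv_le_comm₀ (hc40 v hv) he0).mp h2
  obtain ⟨k, hk⟩ : ∃ k : ℕ, e ≤ 2 ^ k := by
    obtain ⟨k, hk⟩ := pow_unbounded_of_one_lt e (by norm_num : (1 : ℝ) < 2)
    exact ⟨k, hk.le⟩
  set M : ℕ := (∏ p ∈ S, p) ^ k with hM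
  have hM0 : 0 < M := by
    rw [hM]
    exact pow_pos (prod_pos fun p hp => (hS p hp).pos) k
  have hα0 : 0 < ∑ v ∈ V, α v - 1 := by linarith
  set E : ℝ := 2 * (CC * A) ^ V.card with hE
  have hE0 : 0 < E := by positivity
  set B0 : ℝ := 1 + E ^ (1 / (∑ v ∈ V, α v - 1)) with hB0
  have hB01 : 1 ≤ B0 := by
    have : 0 < E ^ (1 / (∑ v ∈ V, α v - 1)) := Real.rpow_pos_of_pos hE0 _
    linarith
  set L : ℤ := ⌈e⌉ with hL
  refine ⟨((Finset.Icc (-L) L) ×ˢ (Finset.Ico (0 : ℤ) M)).card, B0, hB01, fun B hB X hX hT => ?_⟩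
  have hB1 : 1 ≤ B := by linarith
  have hBpos : 0 < B := by linarith
  set cls : (Fin (m + 2) → ℤ) → ℤ × ℤ := fun x => (⌊(x 0 : ℝ) * e / B⌋, x 0 % M) with hcls
  refine card_le_card_of_injOn cls ?_ ?_
  · intro x hx
    have hxB := (hX x hx).1 0
    rw [abs_le] at hxB
    simp only [hcls, coe_product, Set.mem_prod, mem_coe, mem_Icc, mem_Ico]
    refine ⟨⟨?_, ?_⟩, ?_, ?_⟩
    · rw [Int.le_floor]
      push_cast
      have h1 : -e ≤ (x 0 : ℝ) * e / B := by
        rw [le_div_iff₀ hBpos]; nlinarith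
      have h2 : e ≤ (L : ℝ) := Int.le_ceil e
      linarith
    · have h1 : (x 0 : ℝ) * e / B ≤ e := by
        rw [div_le_iff₀ hBpos]; nlinarith
      have h2 : e ≤ (L : ℝ) := Int.le_ceil e
      have h3 : ((⌊(x 0 : ℝ) * e / B⌋ : ℤ) : ℝ) ≤ (L : ℝ) := (Int.floor_le _).trans (h1.trans h2)
      exact_mod_cast h3
    · exact Int.emod_nonneg _ (by exact_mod_cast hM0.ne')
    · exact Int.emod_lt_of_pos _ (by exact_mod_cast hM0)
  · intro x hx y hy hxy
    by_contra hne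
    have hx' : x ∈ X := hx
    have hy' : y ∈ X := hy
    have hn : y 0 - x 0 ≠ 0 := by
      intro h0
      apply hne
      funext i
      refine Fin.cases ?_ (fun j => ?_) i
      · omega
      · exact hT x hx' y hy' j
    simp only [hcls, Prod.mk.injEq] at hxy
    obtain ⟨hfl, hmod⟩ := hxy
    have hagree : Agree x y := fun i => hT x hx' y hy' i.succ
    have h1eq : y 1 - x 1 = 0 := by
      have := hT x hx' y hy' 0
      have e1 : (Fin.succ 0 : Fin (m + 2)) = 1 := rfl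
      rw [e1] at this
      omega
    have hz : ∀ v : Option ℕ, nval v B 1 (y 1 - x 1) = 0 := by
      intro v
      rw [h1eq]
      cases v <;> simp [nval]
    have hnear : ∀ v ∈ V, Near v B (c4 v) x y := by
      intro v hv
      refine ⟨?_, by rw [hz v]; exact (hc40 v hv).le⟩
      refine le_trans ?_ (hele v hv)
      rcases v with _ | p
      · simp only [nval, pow_one]
        have h2 := Int.abs_sub_lt_one_of_floor_eq_floor hfl
        have h3 : (x 0 : ℝ) * e / B - (y 0 : ℝ) * e / B = ((x 0 : ℝ) - y 0) * e / B := by ring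
        rw [h3, abs_div, abs_mul, abs_of_pos he0, abs_of_pos hBpos, div_lt_one hBpos] at h2
        rw [div_le_iff₀ hBpos, abs_sub_comm] at *
        push_cast
        rw [inv_mul_eq_div, le_div_iff₀ he0]
        exact h2.le
      · have hpp : p.Prime := hprime _ hv p rfl
        have hpS : p ∈ S := by
          have := hV hv
          simpa using this
        have : Fact p.Prime := ⟨hpp⟩
        simp only [nval]
        have hdvd : ((p ^ k : ℕ) : ℤ) ∣ y 0 - x 0 := by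
          have h4 : (M : ℤ) ∣ y 0 - x 0 := (Int.ModEq.dvd (hmod : x 0 ≡ y 0 [ZMOD M]))
          refine dvd_trans ?_ h4
          have h5 : p ^ k ∣ M := by
            rw [hM]
            exact pow_dvd_pow_of_dvd (dvd_prod_of_mem _ hpS) k
          exact_mod_cast h5
        have h6 := (padicNorm.dvd_iff_norm_le (p := p) (n := k) (z := y 0 - x 0)).mp
          (by exact_mod_cast hdvd)
        have h7 : (padicNorm p ((y 0 - x 0 : ℤ) : ℚ) : ℝ) ≤ ((p : ℝ) ^ k)⁻¹ := by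
          have h8 : (((padicNorm p ((y 0 - x 0 : ℤ) : ℚ)) : ℚ) : ℝ) ≤ (((p : ℚ) ^ (-(k : ℤ)) : ℚ) : ℝ) := by
            exact_mod_cast h6
          rw [zpow_neg, zpow_natCast] at h8
          push_cast at h8 ⊢
          exact h8
        refine h7.trans ?_
        have h9 : e ≤ (p : ℝ) ^ k := hk.trans (pow_le_pow_left₀ (by norm_num)
          (by exact_mod_cast hpp.two_le) k)
        exact inv_anti₀ he0 h9
    have hbound : ∀ v ∈ V, nval v B 1 (y 0 - x 0) ≤ CC * A * B ^ (-(α v)) := by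
      intro v hv
      have h1 := hloc v hv B hB1 x y (A * B ^ (-(α v))) (hX x hx').1 (hX y hy').1 hagree
        ((hX x hx').2 v hv) ((hX y hy').2 v hv) (hnear v hv)
      rw [hz v, zero_add] at h1
      have h2 : 0 < B ^ (-(α v)) := Real.rpow_pos_of_pos hBpos _
      calc nval v B 1 (y 0 - x 0) ≤ C v * (A * B ^ (-(α v))) := h1
        _ ≤ CC * (A * B ^ (-(α v))) := mul_le_mul_of_nonneg_right (hCle v hv) (by positivity)
        _ = CC * A * B ^ (-(α v)) := by ring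
    have hprod : ∏ v ∈ V, nval v B 1 (y 0 - x 0) ≤ (CC * A) ^ V.card * B ^ (-∑ v ∈ V, α v) := by
      calc ∏ v ∈ V, nval v B 1 (y 0 - x 0) ≤ ∏ v ∈ V, (CC * A * B ^ (-(α v))) :=
            prod_le_prod (fun v _ => nval_nonneg v hBpos.le 1 _) hbound
        _ = (CC * A) ^ V.card * B ^ (-∑ v ∈ V, α v) := by
            rw [prod_mul_distrib, prod_const, ← sum_neg_distrib, Real.rpow_sum_of_pos hBpos]
    have hdiff : |((y 0 - x 0 : ℤ) : ℝ)| ≤ 2 * B := by
      push_cast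
      calc |(y 0 : ℝ) - x 0| ≤ |(y 0 : ℝ)| + |(x 0 : ℝ)| := abs_sub _ _
        _ ≤ B + B := add_le_add ((hX y hy').1 0) ((hX x hx').1 0)
        _ = 2 * B := by ring
    have h1 := prod_nval S hS V hV hB1 (y 0 - x 0) hn hdiff
    have h2 : 2 * B * ∏ v ∈ V, nval v B 1 (y 0 - x 0) ≤ E * B ^ (1 - ∑ v ∈ V, α v) := by
      have h3 : B ^ (1 - ∑ v ∈ V, α v) = B * B ^ (-∑ v ∈ V, α v) := by
        rw [sub_eq_add_neg, Real.rpow_add hBpos, Real.rpow_one]
      rw [h3, hE]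
      calc 2 * B * ∏ v ∈ V, nval v B 1 (y 0 - x 0)
          ≤ 2 * B * ((CC * A) ^ V.card * B ^ (-∑ v ∈ V, α v)) :=
            mul_le_mul_of_nonneg_left hprod (by positivity)
        _ = 2 * (CC * A) ^ V.card * (B * B ^ (-∑ v ∈ V, α v)) := by ring
    have h4 : 1 ≤ E * B ^ (1 - ∑ v ∈ V, α v) := h1.trans h2
    have h5 : B ^ (∑ v ∈ V, α v - 1) ≤ E := by
      have h6 : B ^ (1 - ∑ v ∈ V, α v) = (B ^ (∑ v ∈ V, α v - 1))⁻¹ := by
        rw [← Real.rpow_neg hBpos.le]; congr 1; ring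
      rw [h6, ← div_eq_mul_inv, le_div_iff₀ (Real.rpow_pos_of_pos hBpos _), one_mul] at h4
      exact h4
    have h7 : B ≤ E ^ (1 / (∑ v ∈ V, α v - 1)) := by
      have h8 := Real.rpow_le_rpow (Real.rpow_nonneg hBpos.le _) h5
        (show 0 ≤ 1 / (∑ v ∈ V, α v - 1) by positivity)
      rw [← Real.rpow_mul hBpos.le, mul_one_div_cancel hα0.ne', Real.rpow_one] at h8
      exact h8
    linarith

/-- (U3) -/
theorem t_TB (hLOC : S_LOC) : S_TB := by
  classical
  intro m S hS V hV F d α hF _ hα R D v1 hR hRh hv1 A c ζ hA hc hζ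
  obtain ⟨N, B0, hB01, hfib⟩ := fibres hLOC m S hS V hV F d α hF hα hA hc
  obtain ⟨θ, C, hθ, hθ1, hC, htail⟩ := tails R hR hRh S hS v1 hv1 hA hζ
  have hm0 : 0 ≤ (m : ℝ) + 1 - θ := by
    have : (0 : ℝ) ≤ m := Nat.cast_nonneg m
    linarith
  refine ⟨θ, N * C + (3 * B0) ^ (m + 2) + 1, hθ, by positivity, fun B hB X hX => ?_⟩
  have hBpos : 0 < B := by linarith
  have hBθ : 1 ≤ B ^ ((m : ℝ) + 1 - θ) := Real.one_le_rpow hB hm0
  by_cases hcase : B0 < B
  · set tl : (Fin (m + 2) → ℤ) → (Fin (m + 1) → ℤ) := fun x i => x i.succ with htl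
    have h1 : X.card ≤ N * (X.image tl).card := by
      refine card_le_mul_card_image X N fun a _ => ?_
      refine hfib B hcase _ (fun x hx => ?_) (fun x hx y hy i => ?_)
      · have hxX := (mem_filter.mp hx).1
        exact ⟨(hX x hxX).1, (hX x hxX).2.1⟩
      · have h2 := (mem_filter.mp hx).2
        have h3 := (mem_filter.mp hy).2
        have h4 := congrFun (h2.trans h3.symm) i
        exact h4
    have h2 : ((X.image tl).card : ℝ) ≤ C * B ^ ((m : ℝ) + 1 - θ) := by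
      refine htail B hB (X.image tl) fun y hy => ?_
      obtain ⟨x, hx, rfl⟩ := mem_image.mp hy
      exact ⟨fun i => (hX x hx).1 i.succ, (hX x hx).2.2⟩
    have h3 : (X.card : ℝ) ≤ N * (X.image tl).card := by exact_mod_cast h1
    calc (X.card : ℝ) ≤ N * (X.image tl).card := h3
      _ ≤ N * (C * B ^ ((m : ℝ) + 1 - θ)) := mul_le_mul_of_nonneg_left h2 (by positivity)
      _ = N * C * B ^ ((m : ℝ) + 1 - θ) := by ring
      _ ≤ (N * C + (3 * B0) ^ (m + 2) + 1) * B ^ ((m : ℝ) + 1 - θ) := by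
          refine mul_le_mul_of_nonneg_right ?_ (by positivity)
          have : 0 < (3 * B0) ^ (m + 2) := by positivity
          linarith
  · push Not at hcase
    have h1 := box_card hB X (fun x hx i => (hX x hx).1 i)
    calc (X.card : ℝ) ≤ (3 * B) ^ (m + 2) := h1
      _ ≤ (3 * B0) ^ (m + 2) := pow_le_pow_left₀ (by positivity) (by linarith) _
      _ ≤ (N * C + (3 * B0) ^ (m + 2) + 1) * 1 := by
          have : 0 ≤ (N : ℝ) * C := by positivity
          linarith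
      _ ≤ (N * C + (3 * B0) ^ (m + 2) + 1) * B ^ ((m : ℝ) + 1 - θ) :=
          mul_le_mul_of_nonneg_left hBθ (by positivity)

end Pool.Agent.K1H47.VXT
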