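import Pool.Agent.K1H59.VX.Stm2
import Pool.Agent.H951R3.W.W3

/-!
# Few integral points of a box are near a hypersurface at one place
-/

set_option autoImplicit false

namespace Pool.Agent.K1H47.VXT

open MvPolynomial Finset Pool.Agent.K1H59.VX

lemma nval_nonneg (v : Option ℕ) {B : ℝ} (hB : 0 ≤ B) (k : ℕ) (a : ℤ) : 0 ≤ nval v B k a := by
  cases v with
  | none => unfold nval; positivity
  | some p =>
    simp only [nval]
    exact_mod_cast padicNorm.nonneg (p := p) (a : ℚ)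

lemma padic_int_le {p : ℕ} (hp : p.Prime) (a : ℤ) : (padicNorm p (a : ℚ) : ℝ) ≤ 1 := by
  have : Fact p.Prime := ⟨hp⟩
  exact_mod_cast padicNorm.of_int a

lemma padic_nonneg (p : ℕ) (a : ℚ) : (0 : ℝ) ≤ (padicNorm p a : ℝ) := by
  exact_mod_cast padicNorm.nonneg (p := p) a

/-- the box as a finite set -/
lemma box_card {n : ℕ} {B : ℝ} (hB : 1 ≤ B) (X : Finset (Fin n → ℤ))
    (hX : ∀ x ∈ X, ∀ i, |(x i : ℝ)| ≤ B) : (X.card : ℝ) ≤ (3 * B) ^ n := by
  classical
  set R : ℤ := ⌊B⌋ with hR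
  have hR0 : 0 ≤ R := Int.floor_nonneg.mpr (by linarith)
  have h1 : X ⊆ Fintype.piFinset (fun _ : Fin n => Finset.Icc (-R) R) := by
    intro x hx
    rw [Fintype.mem_piFinset]
    intro i
    rw [Finset.mem_Icc, ← abs_le, hR, Int.le_floor]
    have := hX x hx i
    push_cast
    exact this
  have h2 := card_le_card h1
  rw [Fintype.card_piFinset, prod_const, card_univ, Fintype.card_fin, Int.card_Icc] at h2
  have h3 : (((R + 1 - -R).toNat : ℕ) : ℝ) ≤ 3 * B := by
    have h4 : (((R + 1 - -R).toNat : ℕ) : ℤ) = R + 1 - -R := Int.toNat_of_nonneg (by omega)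
    have h5 : (((R + 1 - -R).toNat : ℕ) : ℝ) = (R : ℝ) + 1 + R := by
      have : ((((R + 1 - -R).toNat : ℕ) : ℤ) : ℝ) = ((R + 1 - -R : ℤ) : ℝ) := by rw [h4]
      push_cast at this
      linarith
    rw [h5]
    have h6 : (R : ℝ) ≤ B := Int.floor_le _
    linarith
  calc (X.card : ℝ) ≤ (((R + 1 - -R).toNat ^ n : ℕ) : ℝ) := by exact_mod_cast h2
    _ = (((R + 1 - -R).toNat : ℕ) : ℝ) ^ n := by push_cast; ring
    _ ≤ (3 * B) ^ n := pow_le_pow_left₀ (by positivity) h3 n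

/-- zeros in the box -/
lemma zeros_card {n : ℕ} (R : MvPolynomial (Fin (n + 1)) ℤ) (hR : R ≠ 0) {B : ℝ} (hB : 1 ≤ B)
    (X : Finset (Fin (n + 1) → ℤ))
    (hX : ∀ x ∈ X, (∀ i, |(x i : ℝ)| ≤ B) ∧ eval x R = 0) :
    (X.card : ℝ) ≤ R.totalDegree * (3 * B) ^ n := by
  classical
  set N : ℤ := ⌊B⌋ with hN
  have hN0 : 0 ≤ N := Int.floor_nonneg.mpr (by linarith)
  set I : Finset ℤ := Finset.Icc (-N) N with hI
  have hIc : (I.card : ℝ) ≤ 3 * B ∧ 0 < I.card := by
    rw [hI, Int.card_Icc]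
    have h4 : (((N + 1 - -N).toNat : ℕ) : ℤ) = N + 1 - -N := Int.toNat_of_nonneg (by omega)
    have h5 : (((N + 1 - -N).toNat : ℕ) : ℝ) = (N : ℝ) + 1 + N := by
      have : ((((N + 1 - -N).toNat : ℕ) : ℤ) : ℝ) = ((N + 1 - -N : ℤ) : ℝ) := by rw [h4]
      push_cast at this
      linarith
    refine ⟨?_, by omega⟩
    rw [h5]
    have h6 : (N : ℝ) ≤ B := Int.floor_le _
    linarith
  have h1 : X ⊆ (Fintype.piFinset fun _ : Fin (n + 1) => I).filter (fun f => eval f R = 0) := by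
    intro x hx
    rw [mem_filter, Fintype.mem_piFinset]
    refine ⟨fun i => ?_, (hX x hx).2⟩
    rw [hI, Finset.mem_Icc, ← abs_le, hN, Int.le_floor]
    have := (hX x hx).1 i
    push_cast
    exact this
  have h2 := schwartz_zippel_totalDegree hR I
  have h3 := card_le_card h1
  have hIpos : (0 : ℝ) < I.card := by exact_mod_cast hIc.2
  have h4 : (((((Fintype.piFinset fun _ : Fin (n + 1) => I).filter (fun f => eval f R = 0)).card : ℕ)
      : ℝ)) / (I.card : ℝ) ^ (n + 1) ≤ R.totalDegree / I.card := by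
    have h2' := (NNRat.cast_le (K := ℝ)).mpr h2
    push_cast at h2'
    exact h2'
  rw [div_le_div_iff₀ (by positivity) hIpos, pow_succ, ← mul_assoc] at h4
  have h5 := le_of_mul_le_mul_right h4 hIpos
  calc (X.card : ℝ) ≤ ((((Fintype.piFinset fun _ : Fin (n + 1) => I).filter
        (fun f => eval f R = 0)).card : ℕ) : ℝ) := by exact_mod_cast h3
    _ ≤ R.totalDegree * (I.card : ℝ) ^ n := h5
    _ ≤ R.totalDegree * (3 * B) ^ n := by
        refine mul_le_mul_of_nonneg_left ?_ (by positivity)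
        exact pow_le_pow_left₀ (by positivity) hIc.1 n

/-- the tails -/
theorem tails {n : ℕ} (R0 : MvPolynomial (Fin (n + 1)) ℤ) (hR0 : R0 ≠ 0) {D0 : ℕ}
    (hRh : R0.IsHomogeneous D0) (S : Finset ℕ) (hS : ∀ p ∈ S, p.Prime) (v1 : Option ℕ)
    (hv1 : v1 ∈ insertNone S) {A ζ : ℝ} (hA : 0 < A) (hζ : 0 < ζ) :
    ∃ θ C : ℝ, 0 < θ ∧ θ ≤ 1 ∧ 0 < C ∧ ∀ B : ℝ, 1 ≤ B → ∀ Y : Finset (Fin (n + 1) → ℤ),
      (∀ y ∈ Y, (∀ i, |(y i : ℝ)| ≤ B) ∧ nval v1 B D0 (eval y R0) ≤ A * B ^ (-ζ)) →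
      (Y.card : ℝ) ≤ C * B ^ ((n : ℝ) + 1 - θ) := by
  classical
  set R : MvPolynomial (Fin (n + 1)) ℤ := R0 * X 0 with hRdef
  set D : ℕ := D0 + 1 with hD
  have hR : R ≠ 0 := mul_ne_zero hR0 (X_ne_zero 0)
  have hRh' : R.IsHomogeneous D := hRh.mul (isHomogeneous_X ℤ 0)
  obtain ⟨A1, hA1, hbd⟩ := Pool.Agent.H951R3.W.eval_bound R hRh'
  have hA10 : 0 < A1 := by linarith
  set τ : ℝ := max ((D : ℝ) - ζ) 0 with hτ
  have hDR : (1 : ℝ) ≤ D := by rw [hD]; push_cast; linarith [(Nat.cast_nonneg D0 : (0:ℝ) ≤ D0)]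
  have hD0' : (0 : ℝ) < D := by linarith
  have hτ0 : 0 ≤ τ := le_max_right _ _
  set η : ℝ := 1 - τ / D with hη
  have hη0 : 0 < η := by
    rw [hη, sub_pos, div_lt_one hD0', hτ, max_lt_iff]
    exact ⟨by linarith, hD0'⟩
  have hη1 : η ≤ 1 := by
    have : 0 ≤ τ / D := by positivity
    linarith
  obtain ⟨C1, hC1, hmain⟩ := Pool.Agent.H951R3.W.main R hR (by omega : 1 ≤ D) hRh' S hS
    (K0 := A * A1) (τ := τ) (δ := η / 2) (by positivity) hτ0 (by positivity)
  refine ⟨η / 2, C1 + R.totalDegree * 3 ^ n, by positivity, by linarith, by positivity,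
    fun B hB Y hY => ?_⟩
  have hB0 : 0 < B := by linarith
  have hpB : ∀ s t : ℝ, s ≤ t → B ^ s ≤ B ^ t := fun s t h => Real.rpow_le_rpow_of_exponent_le hB h
  set Y0 := Y.filter (fun y => eval y R = 0) with hY0
  set Y1 := Y.filter (fun y => ¬ eval y R = 0) with hY1
  have hsplit : Y.card = Y0.card + Y1.card := by
    rw [hY0, hY1, Finset.card_filter_add_card_filter_not]
  have hz : (Y0.card : ℝ) ≤ R.totalDegree * 3 ^ n * B ^ ((n : ℝ) + 1 - η / 2) := by
    have h1 := zeros_card R hR hB Y0 (fun x hx => by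
      rw [hY0, mem_filter] at hx
      exact ⟨(hY x hx.1).1, hx.2⟩)
    refine h1.trans ?_
    rw [mul_pow, mul_assoc]
    refine mul_le_mul_of_nonneg_left ?_ (by positivity)
    refine mul_le_mul_of_nonneg_left ?_ (by positivity)
    rw [← Real.rpow_natCast B n]
    exact hpB _ _ (by linarith)
  have hnz : (Y1.card : ℝ) ≤ C1 * B ^ ((n : ℝ) + 1 - η / 2) := by
    have h1 := hmain B hB Y1 (fun x hx => ?_)
    · refine h1.trans ?_
      refine mul_le_mul_of_nonneg_left (hpB _ _ ?_) hC1.le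
      rw [hη]; linarith
    · rw [hY1, mem_filter] at hx
      obtain ⟨hxb, hxv⟩ := hY x hx.1
      refine ⟨hxb, hx.2, ?_⟩
      have hev : eval x R = eval x R0 * x 0 := by rw [hRdef, map_mul, eval_X]
      have hprod1 : ∏ p ∈ S, (padicNorm p ((eval x R : ℤ) : ℚ) : ℝ) ≤ 1 :=
        prod_le_one (fun p _ => padic_nonneg p _) (fun p hp => padic_int_le (hS p hp) _)
      have hprod0 : 0 ≤ ∏ p ∈ S, (padicNorm p ((eval x R : ℤ) : ℚ) : ℝ) :=
        prod_nonneg (fun p _ => padic_nonneg p _)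
      have hpow : B ^ ((D : ℝ) - ζ) ≤ B ^ τ := hpB _ _ (le_max_left _ _)
      have hpow0 : 0 < B ^ ((D : ℝ) - ζ) := Real.rpow_pos_of_pos hB0 _
      have hsplitpow : B ^ ((D : ℝ) - ζ) = B ^ D * B ^ (-ζ) := by
        rw [sub_eq_add_neg, Real.rpow_add hB0, Real.rpow_natCast]
      have hgoal : |((eval x R : ℤ) : ℝ)| *
          ∏ p ∈ S, (padicNorm p ((eval x R : ℤ) : ℚ) : ℝ) ≤ A * A1 * B ^ ((D : ℝ) - ζ) := by
        rcases v1 with _ | p
        · -- real place
          simp only [nval] at hxv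
          rw [div_le_iff₀ (by positivity)] at hxv
          have h2 : |((eval x R : ℤ) : ℝ)| ≤ A * B ^ ((D : ℝ) - ζ) := by
            rw [hev]
            push_cast
            rw [abs_mul]
            calc |((eval x R0 : ℤ) : ℝ)| * |(x 0 : ℝ)| ≤ (A * B ^ (-ζ) * B ^ D0) * B :=
                  mul_le_mul hxv (hxb 0) (abs_nonneg _) (by positivity)
              _ = A * B ^ ((D : ℝ) - ζ) := by rw [hsplitpow, hD, pow_succ]; ring
          calc |((eval x R : ℤ) : ℝ)| * ∏ p ∈ S, (padicNorm p ((eval x R : ℤ) : ℚ) : ℝ)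
              ≤ |((eval x R : ℤ) : ℝ)| * 1 := mul_le_mul_of_nonneg_left hprod1 (abs_nonneg _)
            _ = |((eval x R : ℤ) : ℝ)| := mul_one _
            _ ≤ A * B ^ ((D : ℝ) - ζ) := h2
            _ ≤ A * A1 * B ^ ((D : ℝ) - ζ) := by
                refine mul_le_mul_of_nonneg_right ?_ hpow0.le
                nlinarith
        · simp only [nval] at hxv
          have hpS : p ∈ S := by simpa using hv1
          have : Fact p.Prime := ⟨hS p hpS⟩
          have h2 : (padicNorm p ((eval x R : ℤ) : ℚ) : ℝ) ≤ A * B ^ (-ζ) := by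
            rw [hev]
            push_cast
            rw [padicNorm.mul]
            push_cast
            have h3 : (padicNorm p ((x 0 : ℤ) : ℚ) : ℝ) ≤ 1 := padic_int_le (hS p hpS) _
            have h4 := padic_nonneg p ((eval x R0 : ℤ) : ℚ)
            calc (padicNorm p ((eval x R0 : ℤ) : ℚ) : ℝ) * (padicNorm p ((x 0 : ℤ) : ℚ) : ℝ)
                ≤ (padicNorm p ((eval x R0 : ℤ) : ℚ) : ℝ) * 1 :=
                  mul_le_mul_of_nonneg_left h3 h4
              _ ≤ A * B ^ (-ζ) := by rw [mul_one]; exact hxv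
          have h5 : ∏ q ∈ S, (padicNorm q ((eval x R : ℤ) : ℚ) : ℝ) ≤ A * B ^ (-ζ) := by
            rw [← mul_prod_erase S _ hpS]
            have h6 : ∏ q ∈ S.erase p, (padicNorm q ((eval x R : ℤ) : ℚ) : ℝ) ≤ 1 :=
              prod_le_one (fun q _ => padic_nonneg q _)
                (fun q hq => padic_int_le (hS q (mem_of_mem_erase hq)) _)
            calc (padicNorm p ((eval x R : ℤ) : ℚ) : ℝ) *
                  ∏ q ∈ S.erase p, (padicNorm q ((eval x R : ℤ) : ℚ) : ℝ)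
                ≤ (padicNorm p ((eval x R : ℤ) : ℚ) : ℝ) * 1 :=
                  mul_le_mul_of_nonneg_left h6 (padic_nonneg p _)
              _ ≤ A * B ^ (-ζ) := by rw [mul_one]; exact h2
          have h7 := hbd B hB x hxb
          calc |((eval x R : ℤ) : ℝ)| * ∏ q ∈ S, (padicNorm q ((eval x R : ℤ) : ℚ) : ℝ)
              ≤ (A1 * B ^ D) * (A * B ^ (-ζ)) :=
                mul_le_mul h7 h5 hprod0 (by positivity)
            _ = A * A1 * B ^ ((D : ℝ) - ζ) := by rw [hsplitpow]; ring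
      refine hgoal.trans ?_
      exact mul_le_mul_of_nonneg_left hpow (by positivity)
  rw [hsplit]
  push_cast
  calc (Y0.card : ℝ) + Y1.card ≤ R.totalDegree * 3 ^ n * B ^ ((n : ℝ) + 1 - η / 2) +
        C1 * B ^ ((n : ℝ) + 1 - η / 2) := add_le_add hz hnz
    _ = (C1 + R.totalDegree * 3 ^ n) * B ^ ((n : ℝ) + 1 - η / 2) := by ring

end Pool.Agent.K1H47.VXT
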